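import Mathlib

/-!
# Chains of finite families of finite sets
-/

namespace Pool.Agent.X153.CH

open Finset

variable {α : Type*} [DecidableEq α]

open Classical in
/-- The chains (for inclusion) of a finite family `S` of finite sets; the empty chain included.
These are the faces of the order complex of `S`. -/
noncomputable def chains (S : Finset (Finset α)) : Finset (Finset (Finset α)) :=
  S.powerset.filter (fun C => IsChain (· ⊆ ·) (C : Set (Finset α)))

/-- members of `S` strictly below `T` -/
def below (S : Finset (Finset α)) (T : Finset α) : Finset (Finset α) :=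
  S.filter (fun F => F ⊂ T)

theorem mem_chains {S : Finset (Finset α)} {C : Finset (Finset α)} :
    C ∈ chains S ↔ C ⊆ S ∧ IsChain (· ⊆ ·) (C : Set (Finset α)) := by
  simp [chains]

theorem mem_below {S : Finset (Finset α)} {T F : Finset α} :
    F ∈ below S T ↔ F ∈ S ∧ F ⊂ T := by
  simp [below]

theorem empty_mem_chains (S : Finset (Finset α)) : ∅ ∈ chains S := by
  rw [mem_chains]; simp

/-- the union of a nonempty chain is its largest member -/
theorem sup_mem_of_chain {C : Finset (Finset α)} (hC : IsChain (· ⊆ ·) (C : Set (Finset α)))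
    (hne : C.Nonempty) : C.sup id ∈ C := by
  obtain ⟨T, hT, hmax⟩ := C.exists_max_image Finset.card hne
  have h : ∀ F ∈ C, F ⊆ T := by
    intro F hF
    rcases eq_or_ne F T with rfl | hFT
    · exact Finset.Subset.refl _
    · rcases hC (by exact_mod_cast hF) (by exact_mod_cast hT) hFT with h1 | h1
      · exact h1
      · have := Finset.eq_of_subset_of_card_le h1 (hmax F hF)
        exact absurd this.symm hFT
  have : C.sup id = T := by
    apply le_antisymm
    · exact Finset.sup_le (fun F hF => h F hF)
    · exact Finset.le_sup (f := id) hT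
  rw [this]; exact hT

theorem le_sup_chain {C : Finset (Finset α)} {F : Finset α} (hF : F ∈ C) : F ⊆ C.sup id :=
  Finset.le_sup (f := id) hF

theorem insert_chain {S : Finset (Finset α)} {T : Finset α} (hT : T ∈ S)
    {C : Finset (Finset α)} (hC : C ∈ chains (below S T)) : insert T C ∈ chains S := by
  rw [mem_chains] at hC ⊢
  refine ⟨?_, ?_⟩
  · intro F hF
    rcases Finset.mem_insert.1 hF with rfl | hF
    · exact hT
    · exact (mem_below.1 (hC.1 hF)).1
  · rw [Finset.coe_insert]
    apply hC.2.insert
    intro F hF _
    right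
    exact (mem_below.1 (hC.1 (by exact_mod_cast hF))).2.subset

theorem notMem_of_below {S : Finset (Finset α)} {T : Finset α}
    {C : Finset (Finset α)} (hC : C ∈ chains (below S T)) : T ∉ C := by
  intro h
  exact absurd (mem_below.1 ((mem_chains.1 hC).1 h)).2 (ssubset_irrefl _)

theorem sup_insert_chain {S : Finset (Finset α)} {T : Finset α}
    {C : Finset (Finset α)} (hC : C ∈ chains (below S T)) : (insert T C).sup id = T := by
  rw [Finset.sup_insert]
  simp only [id]
  apply sup_eq_left.2
  apply Finset.sup_le
  intro F hF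
  exact (mem_below.1 ((mem_chains.1 hC).1 hF)).2.subset

theorem erase_chain {S : Finset (Finset α)}
    {C : Finset (Finset α)} (hC : C ∈ chains S) (_hne : C.Nonempty) :
    C.erase (C.sup id) ∈ chains (below S (C.sup id)) := by
  rw [mem_chains] at hC ⊢
  refine ⟨?_, ?_⟩
  · intro F hF
    have hF' := Finset.mem_erase.1 hF
    rw [mem_below]
    exact ⟨hC.1 hF'.2, lt_of_le_of_ne (le_sup_chain hF'.2) hF'.1⟩
  · refine IsChain.mono ?_ hC.2
    intro F hF
    have hF' := Finset.mem_erase.1 (by exact_mod_cast hF : F ∈ C.erase (C.sup id))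
    exact_mod_cast hF'.2

/-- **Splitting a chain sum by the largest member.** -/
theorem chain_sum {M : Type*} [AddCommMonoid M] (S : Finset (Finset α))
    (g : Finset (Finset α) → M) :
    ∑ C ∈ chains S, g C = g ∅ + ∑ T ∈ S, ∑ C ∈ chains (below S T), g (insert T C) := by
  rw [← Finset.add_sum_erase _ _ (empty_mem_chains S)]
  congr 1
  rw [Finset.sum_sigma']
  refine Finset.sum_bij' (fun C _ => (⟨C.sup id, C.erase (C.sup id)⟩ : (_ : Finset α) × Finset (Finset α)))
    (fun p _ => insert p.1 p.2) ?_ ?_ ?_ ?_ ?_
  · intro C hC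
    have h := Finset.mem_erase.1 hC
    have hne : C.Nonempty := Finset.nonempty_iff_ne_empty.2 h.1
    rw [Finset.mem_sigma]
    refine ⟨?_, erase_chain h.2 hne⟩
    exact (mem_chains.1 h.2).1 (sup_mem_of_chain (mem_chains.1 h.2).2 hne)
  · intro p hp
    have h := Finset.mem_sigma.1 hp
    rw [Finset.mem_erase]
    exact ⟨Finset.insert_ne_empty _ _, insert_chain h.1 h.2⟩
  · intro C hC
    have h := Finset.mem_erase.1 hC
    have hne : C.Nonempty := Finset.nonempty_iff_ne_empty.2 h.1
    exact Finset.insert_erase (sup_mem_of_chain (mem_chains.1 h.2).2 hne)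
  · intro p hp
    have h := Finset.mem_sigma.1 hp
    obtain ⟨T, C⟩ := p
    have h1 : (insert T C).sup id = T := sup_insert_chain h.2
    have h2 : (insert T C).erase T = C := Finset.erase_insert (notMem_of_below h.2)
    simp only [h1, h2]
  · intro C hC
    have h := Finset.mem_erase.1 hC
    have hne : C.Nonempty := Finset.nonempty_iff_ne_empty.2 h.1
    simp only
    rw [Finset.insert_erase (sup_mem_of_chain (mem_chains.1 h.2).2 hne)]

/-- **Adjoining a member comparable to all others.** -/
theorem chains_insert_sum {M : Type*} [AddCommMonoid M] (S : Finset (Finset α)) (x : Finset α)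
    (hx : x ∉ S) (hcomp : ∀ F ∈ S, F ⊆ x ∨ x ⊆ F) (g : Finset (Finset α) → M) :
    ∑ C ∈ chains (insert x S), g C = ∑ C ∈ chains S, g C + ∑ C ∈ chains S, g (insert x C) := by
  classical
  unfold chains
  rw [Finset.sum_filter, Finset.sum_filter, Finset.sum_filter, Finset.sum_powerset_insert hx]
  congr 1
  apply Finset.sum_congr rfl
  intro C hC
  have hC' := Finset.mem_powerset.1 hC
  have : IsChain (· ⊆ ·) ((insert x C : Finset (Finset α)) : Set (Finset α)) ↔
      IsChain (· ⊆ ·) (C : Set (Finset α)) := by
    constructor
    · intro h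
      refine IsChain.mono ?_ h
      intro F hF
      rw [Finset.coe_insert]
      exact Or.inr hF
    · intro h
      rw [Finset.coe_insert]
      apply h.insert
      intro F hF _
      rcases hcomp F (hC' (by exact_mod_cast hF)) with h1 | h1
      · exact Or.inr h1
      · exact Or.inl h1
  simp only [this]

/-- cardinality is injective on chains -/
theorem card_injOn_chain {C : Finset (Finset α)} (hC : IsChain (· ⊆ ·) (C : Set (Finset α))) :
    Set.InjOn Finset.card (C : Set (Finset α)) := by
  intro F hF G hG h
  by_contra hne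
  rcases hC hF hG hne with h1 | h1
  · exact hne (Finset.eq_of_subset_of_card_le h1 h.ge)
  · exact hne (Finset.eq_of_subset_of_card_le h1 h.le).symm

theorem card_chain_le {S : Finset (Finset α)} {C : Finset (Finset α)} (hC : C ∈ chains S)
    (I : Finset ℕ) (hI : ∀ F ∈ S, F.card ∈ I) : C.card ≤ I.card := by
  have h := mem_chains.1 hC
  rw [← Finset.card_image_of_injOn (card_injOn_chain h.2)]
  apply Finset.card_le_card
  intro m hm
  obtain ⟨F, hF, rfl⟩ := Finset.mem_image.1 hm
  exact hI F (h.1 hF)

end Pool.Agent.X153.CH
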