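import Mathlib

/-!
# Numerical part: the two binomial transforms
-/

namespace Pool.Agent.X153.CH

open Polynomial Finset

/-- `1 + t + … + t^(d-1)` -/
noncomputable def qn (d : ℕ) : ℤ[X] := ∑ a ∈ range d, X ^ a

/-- `t + … + t^(d-1)` -/
noncomputable def wt (d : ℕ) : ℤ[X] := ∑ a ∈ Ico 1 d, X ^ a

theorem qn_eq (d : ℕ) (hd : 1 ≤ d) : qn d = 1 + wt d := by
  unfold qn wt
  rw [range_eq_Ico, ← Finset.sum_Ico_consecutive _ (Nat.zero_le 1) hd]
  simp

theorem qn_succ (d : ℕ) : qn (d + 1) = X * qn d + 1 := by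
  unfold qn
  rw [Finset.sum_range_succ', Finset.mul_sum]
  simp [pow_succ, mul_comm]

/-- sequence with weights `w`: sums over chains of subsets of an `i`-set -/
noncomputable def seq (w : ℕ → ℤ[X]) : ℕ → ℤ[X]
  | 0 => 1
  | (i + 1) => ∑ l : Fin (i + 1), ((i + 1).choose l : ℤ[X]) * seq w l * w (i + 1 - l)

theorem seq_zero (w : ℕ → ℤ[X]) : seq w 0 = 1 := by rw [seq]

theorem seq_pos (w : ℕ → ℤ[X]) (i : ℕ) (hi : 1 ≤ i) :
    seq w i = ∑ l ∈ range i, (i.choose l : ℤ[X]) * seq w l * w (i - l) := by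
  obtain ⟨j, rfl⟩ : ∃ j, i = j + 1 := ⟨i - 1, by omega⟩
  rw [seq, Finset.sum_range]

/-- `∑_{m<N} C(N,m) (t-1)^(N-1-m) = 1 + … + t^(N-1)` -/
theorem binom_qn (N : ℕ) :
    ∑ m ∈ range N, (N.choose m : ℤ[X]) * (X - 1) ^ (N - 1 - m) = qn N := by
  have h1 : (X - 1 : ℤ[X]) * ∑ m ∈ range N, (N.choose m : ℤ[X]) * (X - 1) ^ (N - 1 - m)
      = (X - 1) * qn N := by
    have h2 : (X - 1 : ℤ[X]) * qn N = X ^ N - 1 := by
      unfold qn; rw [mul_comm]; exact geom_sum_mul X N
    rw [h2, Finset.mul_sum]
    have h3 : (X : ℤ[X]) ^ N = ∑ m ∈ range (N + 1), (1 : ℤ[X]) ^ m * (X - 1) ^ (N - m)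
        * (N.choose m : ℤ[X]) := by
      rw [← add_pow]; ring
    rw [h3, Finset.sum_range_succ]
    simp only [one_pow, one_mul, Nat.sub_self, pow_zero, Nat.choose_self, Nat.cast_one,
      add_sub_cancel_right]
    apply Finset.sum_congr rfl
    intro m hm
    have : N - m = (N - 1 - m) + 1 := by have := Finset.mem_range.1 hm; omega
    rw [this, pow_succ]; ring
  have hne : (X - 1 : ℤ[X]) ≠ 0 := by
    intro h
    have := congrArg (Polynomial.eval 0) h
    simp at this
  exact mul_left_cancel₀ hne h1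

/-- exchange of summation -/
theorem tri_sum (i : ℕ) (z : ℕ → ℤ[X]) (c : ℕ → ℤ[X]) (n : ℕ) (hi : i ≤ n + 1) :
    ∑ m ∈ range i, (n.choose m : ℤ[X]) * (∑ l ∈ range (m + 1), (m.choose l : ℤ[X]) * z l) * c m
      = ∑ l ∈ range i, (n.choose l : ℤ[X]) * z l *
          ∑ s ∈ range (i - l), ((n - l).choose s : ℤ[X]) * c (l + s) := by
  have h1 : ∀ m ∈ range i, (n.choose m : ℤ[X]) * (∑ l ∈ range (m + 1), (m.choose l : ℤ[X]) * z l)
      * c m = ∑ l ∈ range (m + 1), (n.choose m : ℤ[X]) * (m.choose l : ℤ[X]) * z l * c m := by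
    intro m _
    rw [Finset.mul_sum, Finset.sum_mul]
    apply Finset.sum_congr rfl
    intro l _
    ring
  rw [Finset.sum_congr rfl h1]
  have h2 : ∑ m ∈ range i, ∑ l ∈ range (m + 1), (n.choose m : ℤ[X]) * (m.choose l : ℤ[X]) * z l * c m
      = ∑ l ∈ range i, ∑ m ∈ Ico l i, (n.choose m : ℤ[X]) * (m.choose l : ℤ[X]) * z l * c m := by
    apply Finset.sum_comm'
    intro m l
    simp only [Finset.mem_range, Finset.mem_Ico]
    omega
  rw [h2]
  apply Finset.sum_congr rfl
  intro l hl
  rw [Finset.sum_Ico_eq_sum_range, Finset.mul_sum]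
  apply Finset.sum_congr rfl
  intro s hs
  have hs' := Finset.mem_range.1 hs
  have h3 : (n.choose (l + s)) * ((l + s).choose l) = n.choose l * (n - l).choose s := by
    have := Nat.choose_mul (n := n) (k := l + s) (s := l) (by omega)
    rw [this]
    congr 2
    omega
  have h4 : (n.choose (l + s) : ℤ[X]) * ((l + s).choose l : ℤ[X])
      = (n.choose l : ℤ[X]) * ((n - l).choose s : ℤ[X]) := by exact_mod_cast h3
  rw [h4]; ring

/-- the `(t-1)`-weighted sequence is the binomial transform of the other one -/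
theorem seq_transform (i : ℕ) :
    seq (fun d => (X - 1) ^ (d - 1)) i = ∑ l ∈ range (i + 1), (i.choose l : ℤ[X]) * seq wt l := by
  induction i using Nat.strong_induction_on with
  | _ i ih =>
    rcases Nat.eq_zero_or_pos i with rfl | hi
    · simp [seq_zero]
    · rw [seq_pos _ i hi]
      have h1 : ∑ m ∈ range i, (i.choose m : ℤ[X]) * seq (fun d => (X - 1) ^ (d - 1)) m
          * (X - 1) ^ (i - m - 1)
          = ∑ m ∈ range i, (i.choose m : ℤ[X]) *
            (∑ l ∈ range (m + 1), (m.choose l : ℤ[X]) * seq wt l) * (X - 1) ^ (i - m - 1) := by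
        apply Finset.sum_congr rfl
        intro m hm
        rw [ih m (Finset.mem_range.1 hm)]
      rw [h1, tri_sum i (seq wt) (fun m => (X - 1) ^ (i - m - 1)) i (by omega)]
      have h2 : ∀ l ∈ range i, (i.choose l : ℤ[X]) * seq wt l *
          ∑ s ∈ range (i - l), ((i - l).choose s : ℤ[X]) * (X - 1) ^ (i - (l + s) - 1)
          = (i.choose l : ℤ[X]) * seq wt l + (i.choose l : ℤ[X]) * seq wt l * wt (i - l) := by
        intro l hl
        have hl' := Finset.mem_range.1 hl
        have h3 : ∑ s ∈ range (i - l), ((i - l).choose s : ℤ[X]) * (X - 1) ^ (i - (l + s) - 1)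
            = qn (i - l) := by
          rw [← binom_qn]
          apply Finset.sum_congr rfl
          intro s _
          congr 2
          omega
        rw [h3, qn_eq _ (by omega)]
        ring
      rw [Finset.sum_congr rfl h2, Finset.sum_add_distrib, ← seq_pos wt i hi,
        Finset.sum_range_succ]
      simp

/-- the key binomial identity -/
theorem key (R : ℕ) : ∀ N, R < N →
    ∑ i ∈ range R, (N.choose i : ℤ[X]) * (X - 1) ^ (R - 1 - i)
      = ∑ j ∈ range R, ((N - (j + 1) - 1).choose (R - (j + 1)) : ℤ[X]) * qn (j + 1) := by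
  induction R with
  | zero => intro N _; simp
  | succ R ih =>
    intro N hN
    obtain ⟨M, rfl⟩ : ∃ M, N = M + 1 := ⟨N - 1, by omega⟩
    have hL : ∑ i ∈ range (R + 1), ((M + 1).choose i : ℤ[X]) * (X - 1) ^ (R + 1 - 1 - i)
        = X * ∑ i ∈ range R, (M.choose i : ℤ[X]) * (X - 1) ^ (R - 1 - i) + (M.choose R : ℤ[X]) := by
      -- Pascal
      have hP : ∑ i ∈ range (R + 1), ((M + 1).choose i : ℤ[X]) * (X - 1) ^ (R + 1 - 1 - i)
          = ∑ i ∈ range (R + 1), (M.choose i : ℤ[X]) * (X - 1) ^ (R - i)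
            + ∑ i ∈ range R, (M.choose i : ℤ[X]) * (X - 1) ^ (R - 1 - i) := by
        rw [Finset.sum_range_succ' (fun i => ((M + 1).choose i : ℤ[X]) * (X - 1) ^ (R + 1 - 1 - i)),
          Finset.sum_range_succ' (fun i => (M.choose i : ℤ[X]) * (X - 1) ^ (R - i))]
        have : ∀ i ∈ range R, ((M + 1).choose (i + 1) : ℤ[X]) * (X - 1) ^ (R + 1 - 1 - (i + 1))
            = (M.choose (i + 1) : ℤ[X]) * (X - 1) ^ (R - (i + 1))
              + (M.choose i : ℤ[X]) * (X - 1) ^ (R - 1 - i) := by
          intro i _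
          rw [Nat.choose_succ_succ]
          have e1 : R + 1 - 1 - (i + 1) = R - (i + 1) := by omega
          have e2 : R - 1 - i = R - (i + 1) := by omega
          rw [e1, e2]
          push_cast
          ring
        rw [Finset.sum_congr rfl this, Finset.sum_add_distrib]
        simp
        ring
      rw [hP, Finset.sum_range_succ]
      have h2 : ∑ i ∈ range R, (M.choose i : ℤ[X]) * (X - 1) ^ (R - i)
          = (X - 1) * ∑ i ∈ range R, (M.choose i : ℤ[X]) * (X - 1) ^ (R - 1 - i) := by
        rw [Finset.mul_sum]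
        apply Finset.sum_congr rfl
        intro i hi
        have : R - i = (R - 1 - i) + 1 := by have := Finset.mem_range.1 hi; omega
        rw [this, pow_succ]; ring
      rw [h2]
      simp
      ring
    have hR : ∑ j ∈ range (R + 1), ((M + 1 - (j + 1) - 1).choose (R + 1 - (j + 1)) : ℤ[X])
          * qn (j + 1)
        = X * ∑ j ∈ range R, ((M - (j + 1) - 1).choose (R - (j + 1)) : ℤ[X]) * qn (j + 1)
          + (M.choose R : ℤ[X]) := by
      have h1 : ∀ j ∈ range (R + 1), ((M + 1 - (j + 1) - 1).choose (R + 1 - (j + 1)) : ℤ[X])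
          * qn (j + 1) = X * (((M - j - 1).choose (R - j) : ℤ[X]) * qn j)
            + ((M - j - 1).choose (R - j) : ℤ[X]) := by
        intro j _
        have e1 : M + 1 - (j + 1) - 1 = M - j - 1 := by omega
        have e2 : R + 1 - (j + 1) = R - j := by omega
        rw [e1, e2, qn_succ]; ring
      rw [Finset.sum_congr rfl h1, Finset.sum_add_distrib, ← Finset.mul_sum]
      congr 1
      · rw [Finset.sum_range_succ']
        have : qn 0 = 0 := by simp [qn]
        rw [this]
        simp
      · -- hockey stick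
        have h2 : ∑ j ∈ range (R + 1), (M - j - 1).choose (R - j) = M.choose R := by
          rw [← Finset.sum_range_reflect]
          have h3 : ∀ s ∈ range (R + 1), (M - (R + 1 - 1 - s) - 1).choose (R - (R + 1 - 1 - s))
              = (M - R - 1 + s).choose s := by
            intro s hs
            have hs' := Finset.mem_range.1 hs
            congr 1 <;> omega
          rw [Finset.sum_congr rfl h3]
          have h4 : ∀ m K : ℕ, ∑ s ∈ range (K + 1), (m + s).choose s = (m + K + 1).choose K := by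
            intro m K
            induction K with
            | zero => simp
            | succ K ihK =>
              rw [Finset.sum_range_succ, ihK]
              have : m + (K + 1) + 1 = (m + K + 1) + 1 := by ring
              rw [this, Nat.choose_succ_succ]
              have e : m + (K + 1) = m + K + 1 := by ring
              rw [e]
          rw [h4]
          congr 1
          omega
        exact_mod_cast h2
    rw [hL, hR, ih M (by omega)]

/-- **The numerical identity.** -/
theorem main_num (n r : ℕ) (hr : r < n) :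
    ∑ i ∈ range r, (n.choose i : ℤ[X]) * seq (fun d => (X - 1) ^ (d - 1)) i * (X - 1) ^ (r - 1 - i)
      = ∑ j ∈ range r, ((n - (j + 1) - 1).choose (r - (j + 1)) : ℤ[X]) *
          ∑ l ∈ range (j + 1), (n.choose l : ℤ[X]) * seq wt l * qn (j + 1 - l) := by
  have h1 : ∑ i ∈ range r, (n.choose i : ℤ[X]) * seq (fun d => (X - 1) ^ (d - 1)) i
      * (X - 1) ^ (r - 1 - i) = ∑ i ∈ range r, (n.choose i : ℤ[X]) *
        (∑ l ∈ range (i + 1), (i.choose l : ℤ[X]) * seq wt l) * (X - 1) ^ (r - 1 - i) := by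
    apply Finset.sum_congr rfl
    intro i _
    rw [seq_transform]
  rw [h1, tri_sum r (seq wt) (fun m => (X - 1) ^ (r - 1 - m)) n (by omega)]
  have h2 : ∀ l ∈ range r, (n.choose l : ℤ[X]) * seq wt l *
      ∑ s ∈ range (r - l), ((n - l).choose s : ℤ[X]) * (X - 1) ^ (r - 1 - (l + s))
      = ∑ j ∈ Ico l r, ((n - (j + 1) - 1).choose (r - (j + 1)) : ℤ[X]) *
          ((n.choose l : ℤ[X]) * seq wt l * qn (j + 1 - l)) := by
    intro l hl
    have hl' := Finset.mem_range.1 hl
    have h3 : ∑ s ∈ range (r - l), ((n - l).choose s : ℤ[X]) * (X - 1) ^ (r - 1 - (l + s))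
        = ∑ s ∈ range (r - l), ((n - l).choose s : ℤ[X]) * (X - 1) ^ (r - l - 1 - s) := by
      apply Finset.sum_congr rfl
      intro s _
      congr 2
      omega
    rw [h3, key (r - l) (n - l) (by omega), Finset.sum_Ico_eq_sum_range, Finset.mul_sum]
    apply Finset.sum_congr rfl
    intro j hj
    have hj' := Finset.mem_range.1 hj
    have e1 : n - l - (j + 1) - 1 = n - (l + j + 1) - 1 := by omega
    have e2 : r - l - (j + 1) = r - (l + j + 1) := by omega
    have e3 : l + j + 1 - l = j + 1 := by omega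
    rw [e1, e2, e3]
    ring
  rw [Finset.sum_congr rfl h2]
  have h4 : ∀ j ∈ range r, ((n - (j + 1) - 1).choose (r - (j + 1)) : ℤ[X]) *
          ∑ l ∈ range (j + 1), (n.choose l : ℤ[X]) * seq wt l * qn (j + 1 - l)
      = ∑ l ∈ range (j + 1), ((n - (j + 1) - 1).choose (r - (j + 1)) : ℤ[X]) *
          ((n.choose l : ℤ[X]) * seq wt l * qn (j + 1 - l)) := by
    intro j _
    rw [Finset.mul_sum]
  rw [Finset.sum_congr rfl h4]
  apply Finset.sum_comm'
  intro l j
  simp only [Finset.mem_range, Finset.mem_Ico]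
  omega

end Pool.Agent.X153.CH
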