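import Mathlib
import Pool.Agent.X153.CH.Num
import Pool.Agent.X153.CH.Chain

/-!
# The order complex of the lattice of flats of a uniform matroid and the Chow polynomials
-/

namespace Pool.Agent.X153.CH

open Polynomial Finset

variable {α : Type*} [DecidableEq α]

/-- The `h`-polynomial of a (nonempty) finite simplicial complex given by the finite set of its
faces (the empty face included): `∑_{i=0}^{d} f_{i-1} (t-1)^{d-i}` where `d` is the largest size
of a face and `f_{i-1}` is the number of faces of size `i`. -/
noncomputable def hPoly {β : Type*} (faces : Finset (Finset β)) : ℤ[X] :=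
  ∑ i ∈ range (faces.sup Finset.card + 1),
    ((faces.filter (fun C => C.card = i)).card : ℤ[X]) * (X - 1) ^ (faces.sup Finset.card - i)

/-- The product, over the members `F` of the chain `C`, of `w (ρ F - ρ F⁻)`, where `F⁻` is the
member of `C` right below `F` (and `ρ F⁻ = 0` if `F` is the least member of `C`). -/
noncomputable def W (w : ℕ → ℤ[X]) (ρ : Finset α → ℕ) (C : Finset (Finset α)) : ℤ[X] :=
  ∏ F ∈ C, w (ρ F - (C.filter (fun G => G ⊂ F)).sup ρ)

theorem W_empty (w : ℕ → ℤ[X]) (ρ : Finset α → ℕ) : W w ρ (∅ : Finset (Finset α)) = 1 := by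
  simp [W]

theorem W_insert (w : ℕ → ℤ[X]) (ρ : Finset α → ℕ) (C : Finset (Finset α)) (T : Finset α)
    (h : ∀ F ∈ C, F ⊂ T) : W w ρ (insert T C) = w (ρ T - C.sup ρ) * W w ρ C := by
  unfold W
  have hT : T ∉ C := fun hT => ssubset_irrefl _ (h T hT)
  rw [Finset.prod_insert hT]
  congr 1
  · congr 2
    have : (insert T C).filter (fun G => G ⊂ T) = C := by
      ext F
      simp only [Finset.mem_filter, Finset.mem_insert]
      constructor
      · rintro ⟨rfl | h1, h2⟩
        · exact absurd h2 (ssubset_irrefl _)
        · exact h1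
      · intro h1
        exact ⟨Or.inr h1, h F h1⟩
    rw [this]
  · apply Finset.prod_congr rfl
    intro F hF
    have : (insert T C).filter (fun G => G ⊂ F) = C.filter (fun G => G ⊂ F) := by
      ext G
      simp only [Finset.mem_filter, Finset.mem_insert]
      constructor
      · rintro ⟨rfl | h1, h2⟩
        · exact absurd (h2.trans (h F hF)) (ssubset_irrefl _)
        · exact ⟨h1, h2⟩
      · rintro ⟨h1, h2⟩
        exact ⟨Or.inr h1, h2⟩
    rw [this]

theorem W_congr (w : ℕ → ℤ[X]) (ρ ρ' : Finset α → ℕ) (C : Finset (Finset α))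
    (h : ∀ F ∈ C, ρ F = ρ' F) : W w ρ C = W w ρ' C := by
  unfold W
  apply Finset.prod_congr rfl
  intro F hF
  rw [h F hF]
  congr 2
  apply Finset.sup_congr rfl
  intro G hG
  exact h G (Finset.mem_filter.1 hG).1

/-- nonempty subsets of `T` with fewer than `j` elements -/
def P (T : Finset α) (j : ℕ) : Finset (Finset α) :=
  T.powerset.filter (fun F => F.Nonempty ∧ F.card < j)

theorem mem_P {T F : Finset α} {j : ℕ} : F ∈ P T j ↔ F ⊆ T ∧ F.Nonempty ∧ F.card < j := by
  simp [P]

theorem below_P {U T : Finset α} {j : ℕ} (hT : T ∈ P U j) : below (P U j) T = P T T.card := by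
  rw [mem_P] at hT
  ext F
  rw [mem_below, mem_P, mem_P]
  constructor
  · rintro ⟨⟨_, h2, _⟩, h4⟩
    exact ⟨h4.subset, h2, Finset.card_lt_card h4⟩
  · rintro ⟨h1, h2, h3⟩
    refine ⟨⟨h1.trans hT.1, h2, by omega⟩, ?_⟩
    refine lt_of_le_of_ne h1 ?_
    rintro rfl
    omega

theorem sum_P (T : Finset α) (j : ℕ) (hj : j ≤ T.card + 1) (f : ℕ → ℤ[X]) :
    ∑ F ∈ P T j, f F.card = ∑ l ∈ Ico 1 j, (T.card.choose l : ℤ[X]) * f l := by
  unfold P
  rw [Finset.sum_filter]
  have h1 : ∀ F ∈ T.powerset, (if F.Nonempty ∧ F.card < j then f F.card else 0)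
      = (fun m => if 1 ≤ m ∧ m < j then f m else 0) F.card := by
    intro F _
    simp only [Finset.one_le_card]
  have h3 := Finset.sum_powerset_apply_card (fun m => if 1 ≤ m ∧ m < j then f m else 0) (x := T)
  rw [Finset.sum_congr rfl h1, h3]
  have h2 : ∀ m ∈ range (T.card + 1), T.card.choose m • (if 1 ≤ m ∧ m < j then f m else 0)
      = if m ∈ Ico 1 j then (T.card.choose m : ℤ[X]) * f m else 0 := by
    intro m _
    simp only [Finset.mem_Ico]
    split_ifs <;> simp
  rw [Finset.sum_congr rfl h2, ← Finset.sum_filter]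
  apply Finset.sum_congr _ (fun _ _ => rfl)
  ext m
  simp only [Finset.mem_filter, Finset.mem_range, Finset.mem_Ico]
  omega

theorem sup_card_insert {S : Finset (Finset α)} {T : Finset α}
    {C : Finset (Finset α)} (hC : C ∈ chains (below S T)) :
    (insert T C).sup Finset.card = T.card := by
  rw [Finset.sup_insert]
  apply sup_eq_left.2
  apply Finset.sup_le
  intro F hF
  exact Finset.card_le_card (mem_below.1 ((mem_chains.1 hC).1 hF)).2.subset

/-- the weighted chain sum -/
theorem chain_weight (w : ℕ → ℤ[X]) (j : ℕ) : 1 ≤ j → ∀ (U : Finset α), j ≤ U.card →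
    ∀ v : ℕ → ℤ[X], ∑ C ∈ chains (P U j), W w Finset.card C * v (j - C.sup Finset.card)
      = ∑ l ∈ range j, (U.card.choose l : ℤ[X]) * seq w l * v (j - l) := by
  induction j using Nat.strong_induction_on with
  | _ j ih =>
    intro hj U hU v
    rw [chain_sum]
    have h1 : ∀ T ∈ P U j, ∑ C ∈ chains (below (P U j) T),
        W w Finset.card (insert T C) * v (j - (insert T C).sup Finset.card)
        = (fun m => seq w m * v (j - m)) T.card := by
      intro T hT
      have hT' := mem_P.1 hT
      have hpos : 1 ≤ T.card := Finset.one_le_card.2 hT'.2.1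
      have h2 : ∀ C ∈ chains (below (P U j) T),
          W w Finset.card (insert T C) * v (j - (insert T C).sup Finset.card)
          = (W w Finset.card C * w (T.card - C.sup Finset.card)) * v (j - T.card) := by
        intro C hC
        rw [sup_card_insert hC, W_insert w Finset.card C T
          (fun F hF => (mem_below.1 ((mem_chains.1 hC).1 hF)).2)]
        ring
      rw [Finset.sum_congr rfl h2, ← Finset.sum_mul, below_P hT,
        ih T.card hT'.2.2 hpos T le_rfl w, ← seq_pos w T.card hpos]
    rw [Finset.sum_congr rfl h1, sum_P U j (by omega) (fun m => seq w m * v (j - m)), W_empty,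
      Finset.range_eq_Ico, Finset.sum_eq_sum_Ico_succ_bot (by omega : 0 < j)]
    simp only [Finset.sup_empty, bot_eq_zero', Nat.choose_zero_right, Nat.cast_one, seq_zero,
      Nat.sub_zero, one_mul, zero_add]
    congr 1
    apply Finset.sum_congr rfl
    intro l _
    ring

/-- the chain sum with powers of `t - 1` -/
theorem chain_h (j : ℕ) : 1 ≤ j → ∀ (U : Finset α), j ≤ U.card →
    ∑ C ∈ chains (P U j), (X - 1 : ℤ[X]) ^ (j - 1 - C.card)
      = ∑ l ∈ range j, (U.card.choose l : ℤ[X]) * seq (fun d => (X - 1) ^ (d - 1)) l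
          * (X - 1) ^ (j - 1 - l) := by
  induction j using Nat.strong_induction_on with
  | _ j ih =>
    intro hj U hU
    rw [chain_sum]
    have h1 : ∀ T ∈ P U j, ∑ C ∈ chains (below (P U j) T),
        (X - 1 : ℤ[X]) ^ (j - 1 - (insert T C).card)
        = (fun m => seq (fun d => (X - 1) ^ (d - 1)) m * (X - 1) ^ (j - 1 - m)) T.card := by
      intro T hT
      have hT' := mem_P.1 hT
      have hpos : 1 ≤ T.card := Finset.one_le_card.2 hT'.2.1
      have h2 : ∀ C ∈ chains (below (P U j) T),
          (X - 1 : ℤ[X]) ^ (j - 1 - (insert T C).card)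
          = (X - 1 : ℤ[X]) ^ (T.card - 1 - C.card) * (X - 1) ^ (j - 1 - T.card) := by
        intro C hC
        rw [Finset.card_insert_of_notMem (notMem_of_below hC), ← pow_add]
        rw [below_P hT] at hC
        have h3 : C.card ≤ (Ico 1 T.card).card := by
          apply card_chain_le hC
          intro F hF
          rw [mem_P] at hF
          rw [Finset.mem_Ico]
          exact ⟨Finset.one_le_card.2 hF.2.1, hF.2.2⟩
        rw [Nat.card_Ico] at h3
        congr 1
        omega
      rw [Finset.sum_congr rfl h2, ← Finset.sum_mul, below_P hT,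
        ih T.card hT'.2.2 hpos T le_rfl]
      simp only
      congr 1
      rw [seq_pos _ T.card hpos]
      apply Finset.sum_congr rfl
      intro l _
      congr 2
      omega
    rw [Finset.sum_congr rfl h1, sum_P U j (by omega)
      (fun m => seq (fun d => (X - 1) ^ (d - 1)) m * (X - 1) ^ (j - 1 - m)),
      Finset.range_eq_Ico, Finset.sum_eq_sum_Ico_succ_bot (by omega : 0 < j)]
    simp only [Finset.card_empty, Nat.choose_zero_right, Nat.cast_one, seq_zero,
      Nat.sub_zero, one_mul, zero_add]
    congr 1
    apply Finset.sum_congr rfl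
    intro l _
    ring

/-! ### Uniform matroids -/

/-- The flats of `U_{n,r}` on `{0, …, n-1}`: the whole set and all sets with at most `r - 1`
elements. -/
def flats (n r : ℕ) : Finset (Finset (Fin n)) :=
  univ.filter (fun F => F.card < r ∨ F = univ)

/-- The rank function of `U_{n,r}`. -/
def rk {n : ℕ} (r : ℕ) (F : Finset (Fin n)) : ℕ := min F.card r

/-- The Hilbert series of the Chow ring of `U_{n,j}` by the Feichtner–Yuzvinsky formula: the sum
over all chains `F_1 ⊂ ⋯ ⊂ F_k` (`k ≥ 0`) of nonempty flats of
`∏_i (t + t^2 + ⋯ + t^(rk F_i - rk F_{i-1} - 1))`, where `F_0 = ∅`. -/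
noncomputable def chowSeries (n j : ℕ) : ℤ[X] :=
  ∑ C ∈ chains ((flats n j).erase ∅),
    ∏ F ∈ C, ∑ a ∈ Ico 1 (rk j F - (C.filter (fun G => G ⊂ F)).sup (rk j)), X ^ a

theorem flats_erase (n j : ℕ) (hj : 1 ≤ j) (hn : j < n) :
    (flats n j).erase ∅ = insert univ (P univ j) := by
  ext F
  simp only [flats, Finset.mem_erase, Finset.mem_filter, Finset.mem_univ, true_and,
    Finset.mem_insert, mem_P, Finset.subset_univ]
  constructor
  · rintro ⟨h1, h2 | h2⟩
    · exact Or.inr ⟨Finset.nonempty_iff_ne_empty.2 h1, h2⟩
    · exact Or.inl h2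
  · rintro (rfl | ⟨h1, h2⟩)
    · refine ⟨?_, Or.inr rfl⟩
      intro h
      have := congrArg Finset.card h
      simp at this
      omega
    · exact ⟨Finset.nonempty_iff_ne_empty.1 h1, Or.inl h2⟩

theorem univ_notMem_P (n j : ℕ) (hn : j < n) : (univ : Finset (Fin n)) ∉ P univ j := by
  rw [mem_P]
  rintro ⟨_, _, h⟩
  simp at h
  omega

theorem chowSeries_eq (n j : ℕ) (hj : 1 ≤ j) (hn : j < n) :
    chowSeries n j = ∑ l ∈ range j, (n.choose l : ℤ[X]) * seq wt l * qn (j - l) := by
  have h0 : chowSeries n j = ∑ C ∈ chains ((flats n j).erase ∅), W wt (rk j) C := rfl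
  rw [h0, flats_erase n j hj hn, chains_insert_sum _ _ (univ_notMem_P n j hn)
    (fun F _ => Or.inl (Finset.subset_univ F)), ← Finset.sum_add_distrib]
  have h1 : ∀ C ∈ chains (P (univ : Finset (Fin n)) j),
      W wt (rk j) C + W wt (rk j) (insert univ C)
      = W wt Finset.card C * qn (j - C.sup Finset.card) := by
    intro C hC
    have hC' := (mem_chains.1 hC).1
    have hlt : ∀ F ∈ C, F.card < j := fun F hF => (mem_P.1 (hC' hF)).2.2
    have hrk : ∀ F ∈ C, rk j F = F.card := fun F hF => min_eq_left (hlt F hF).le
    rw [W_insert wt (rk j) C univ (by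
      intro F hF
      refine lt_of_le_of_ne (Finset.subset_univ F) ?_
      rintro rfl
      have := hlt _ hF
      simp at this
      omega), W_congr wt (rk j) Finset.card C hrk]
    have hsup : C.sup (rk j) = C.sup Finset.card := Finset.sup_congr rfl hrk
    have hsuplt : C.sup Finset.card < j := by
      rw [Finset.sup_lt_iff (show (⊥ : ℕ) < j by simp; omega)]
      exact hlt
    have hru : rk j (univ : Finset (Fin n)) = j := by
      unfold rk
      simp
      omega
    rw [hsup, hru, qn_eq _ (by omega)]
    ring
  rw [Finset.sum_congr rfl h1, chain_weight wt j hj univ (by simp; omega) qn]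
  simp

theorem hPoly_eq {β : Type*} (faces : Finset (Finset β)) :
    hPoly faces = ∑ C ∈ faces, (X - 1 : ℤ[X]) ^ (faces.sup Finset.card - C.card) := by
  unfold hPoly
  have h : ∀ C ∈ faces, C.card ∈ range (faces.sup Finset.card + 1) := by
    intro C hC
    rw [Finset.mem_range]
    have := Finset.le_sup (f := Finset.card) hC
    omega
  rw [← Finset.sum_fiberwise_of_maps_to h]
  apply Finset.sum_congr rfl
  intro i _
  rw [Finset.sum_congr rfl (g := fun _ => (X - 1 : ℤ[X]) ^ (faces.sup Finset.card - i))]
  · rw [Finset.sum_const, nsmul_eq_mul]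
  · intro C hC
    rw [(Finset.mem_filter.1 hC).2]

/-- a maximal chain of flats -/
theorem exists_chain (n r : ℕ) (hr : 1 ≤ r) (hn : r < n) :
    ∃ C ∈ chains (flats n r), C.card = r + 1 := by
  classical
  let f : ℕ → Finset (Fin n) := fun i => univ.filter (fun x => x.val < i)
  have hf : ∀ i ≤ n, (f i).card = i := by
    intro i hi
    have : f i = (univ : Finset (Fin i)).map (Fin.castLEEmb hi) := by
      ext x
      simp only [f, Finset.mem_filter, Finset.mem_univ, true_and, Finset.mem_map]
      constructor
      · intro hx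
        exact ⟨⟨x.val, hx⟩, by ext; simp⟩
      · rintro ⟨y, rfl⟩
        simp
    rw [this]; simp
  have hmono : ∀ i j, i ≤ j → f i ⊆ f j := by
    intro i j hij x hx
    simp only [f, Finset.mem_filter, Finset.mem_univ, true_and] at hx ⊢
    omega
  refine ⟨insert univ ((range r).image f), ?_, ?_⟩
  · rw [mem_chains]
    refine ⟨?_, ?_⟩
    · intro F hF
      rw [Finset.mem_insert, Finset.mem_image] at hF
      rcases hF with rfl | ⟨i, hi, rfl⟩
      · simp [flats]
      · have hi' := Finset.mem_range.1 hi
        simp only [flats, Finset.mem_filter, Finset.mem_univ, true_and]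
        left
        rw [hf i (by omega)]; exact hi'
    · rw [Finset.coe_insert]
      apply IsChain.insert
      · intro F hF G hG _
        simp only [Finset.coe_image, Set.mem_image, Finset.mem_coe] at hF hG
        obtain ⟨i, _, rfl⟩ := hF
        obtain ⟨j, _, rfl⟩ := hG
        rcases le_total i j with h | h
        · exact Or.inl (hmono i j h)
        · exact Or.inr (hmono j i h)
      · intro F _ _
        right
        exact Finset.subset_univ F
  · have hinj : Set.InjOn f (range r : Set ℕ) := by
      intro i hi j hj h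
      have hi' := Finset.mem_range.1 (by exact_mod_cast hi : i ∈ range r)
      have hj' := Finset.mem_range.1 (by exact_mod_cast hj : j ∈ range r)
      have := congrArg Finset.card h
      rw [hf i (by omega), hf j (by omega)] at this
      exact this
    rw [Finset.card_insert_of_notMem, Finset.card_image_of_injOn hinj, Finset.card_range]
    intro h
    obtain ⟨i, hi, h⟩ := Finset.mem_image.1 h
    have hi' := Finset.mem_range.1 hi
    have := congrArg Finset.card h
    rw [hf i (by omega)] at this
    simp at this
    omega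

theorem flats_eq (n r : ℕ) (hr : 1 ≤ r) (hn : r < n) :
    flats n r = insert univ (insert ∅ (P univ r)) := by
  rw [Finset.insert_comm, ← flats_erase n r hr hn, Finset.insert_erase]
  simp only [flats, Finset.mem_filter, Finset.mem_univ, true_and, Finset.card_empty]
  left; omega

theorem hPoly_flats (n r : ℕ) (hr : 1 ≤ r) (hn : r < n) :
    hPoly (chains (flats n r)) = X ^ 2 *
      ∑ i ∈ range r, (n.choose i : ℤ[X]) * seq (fun d => (X - 1) ^ (d - 1)) i
        * (X - 1) ^ (r - 1 - i) := by
  -- chains of proper nonempty flats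
  have hc : ∀ C ∈ chains (P (univ : Finset (Fin n)) r), C.card ≤ r - 1 := by
    intro C hC
    have h3 : C.card ≤ (Ico 1 r).card := by
      apply card_chain_le hC
      intro F hF
      rw [mem_P] at hF
      rw [Finset.mem_Ico]
      exact ⟨Finset.one_le_card.2 hF.2.1, hF.2.2⟩
    rwa [Nat.card_Ico] at h3
  have he : (∅ : Finset (Fin n)) ∉ P univ r := by
    rw [mem_P]; rintro ⟨_, h, _⟩; simp at h
  have hc1 : ∀ C ∈ chains (insert ∅ (P (univ : Finset (Fin n)) r)), C.card ≤ r := by
    intro C hC
    have h3 : C.card ≤ (range r).card := by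
      apply card_chain_le hC
      intro F hF
      rw [Finset.mem_range]
      rcases Finset.mem_insert.1 hF with rfl | hF
      · simp; omega
      · exact (mem_P.1 hF).2.2
    simpa using h3
  have hu : (univ : Finset (Fin n)) ∉ insert ∅ (P (univ : Finset (Fin n)) r) := by
    rw [Finset.mem_insert]
    rintro (h | h)
    · have := congrArg Finset.card h
      simp at this
      omega
    · exact univ_notMem_P n r hn h
  have hc2 : ∀ C ∈ chains (flats n r), C.card ≤ r + 1 := by
    intro C hC
    have h3 : C.card ≤ (insert n (range r)).card := by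
      apply card_chain_le hC
      intro F hF
      simp only [flats, Finset.mem_filter, Finset.mem_univ, true_and] at hF
      rw [Finset.mem_insert, Finset.mem_range]
      rcases hF with hF | rfl
      · exact Or.inr hF
      · left; simp
    rw [Finset.card_insert_of_notMem (by simp; omega), Finset.card_range] at h3
    exact h3
  have hd : (chains (flats n r)).sup Finset.card = r + 1 := by
    apply le_antisymm
    · exact Finset.sup_le hc2
    · obtain ⟨C, hC, hcard⟩ := exists_chain n r hr hn
      rw [← hcard]
      exact Finset.le_sup (f := Finset.card) hC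
  rw [hPoly_eq, hd, flats_eq n r hr hn, chains_insert_sum _ _ hu
    (fun F _ => Or.inl (Finset.subset_univ F)), ← Finset.sum_add_distrib]
  have h1 : ∀ C ∈ chains (insert ∅ (P (univ : Finset (Fin n)) r)),
      (X - 1 : ℤ[X]) ^ (r + 1 - C.card) + (X - 1) ^ (r + 1 - (insert univ C).card)
      = X * (X - 1) ^ (r - C.card) := by
    intro C hC
    have hnot : (univ : Finset (Fin n)) ∉ C := fun h => hu ((mem_chains.1 hC).1 h)
    rw [Finset.card_insert_of_notMem hnot]
    have h2 := hc1 C hC
    have e1 : r + 1 - C.card = (r - C.card) + 1 := by omega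
    have e2 : r + 1 - (C.card + 1) = r - C.card := by omega
    rw [e1, e2, pow_succ]
    ring
  rw [Finset.sum_congr rfl h1, ← Finset.mul_sum, chains_insert_sum _ _ he
    (fun F _ => Or.inr (Finset.empty_subset F)), ← Finset.sum_add_distrib]
  have h2 : ∀ C ∈ chains (P (univ : Finset (Fin n)) r),
      (X - 1 : ℤ[X]) ^ (r - C.card) + (X - 1) ^ (r - (insert ∅ C).card)
      = X * (X - 1) ^ (r - 1 - C.card) := by
    intro C hC
    have hnot : (∅ : Finset (Fin n)) ∉ C := fun h => he ((mem_chains.1 hC).1 h)
    rw [Finset.card_insert_of_notMem hnot]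
    have h3 := hc C hC
    have e1 : r - C.card = (r - 1 - C.card) + 1 := by omega
    have e2 : r - (C.card + 1) = r - 1 - C.card := by omega
    rw [e2, e1, pow_succ]
    ring
  rw [Finset.sum_congr rfl h2, ← Finset.mul_sum, chain_h r hr univ (by simp; omega)]
  simp only [Finset.card_univ, Fintype.card_fin]
  ring

/-- **The identity of Q1**, with the Hilbert series of the Chow ring given by the
Feichtner–Yuzvinsky formula. -/
theorem main (n r : ℕ) (hr : 1 ≤ r) (hn : r < n) :
    hPoly (chains (flats n r))
      = X ^ 2 * ∑ j ∈ Icc 1 r, ((n - j - 1).choose (r - j) : ℤ[X]) * chowSeries n j := by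
  rw [hPoly_flats n r hr hn, main_num n r hn]
  have h1 : Icc 1 r = Ico 1 (r + 1) := by
    ext x; simp only [Finset.mem_Icc, Finset.mem_Ico]; omega
  have h2 : ∑ j ∈ Icc 1 r, ((n - j - 1).choose (r - j) : ℤ[X]) * chowSeries n j
      = ∑ j ∈ range r, ((n - (j + 1) - 1).choose (r - (j + 1)) : ℤ[X]) *
          ∑ l ∈ range (j + 1), (n.choose l : ℤ[X]) * seq wt l * qn (j + 1 - l) := by
    rw [h1, Finset.sum_Ico_eq_sum_range]
    have h3 : r + 1 - 1 = r := by omega
    rw [h3]
    apply Finset.sum_congr rfl
    intro j hj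
    have hj' := Finset.mem_range.1 hj
    rw [Nat.add_comm 1 j, chowSeries_eq n (j + 1) (by omega) (by omega)]
  rw [h2]

end Pool.Agent.X153.CH
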